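import Pool.Agent.H782R2.SFinal

/-!
# MP_d23f22_an: Q1 is false

For an explicit real-analytic potential `V` of mean zero (Suris' integrable potential
`V(x) = -(2/π) arg(1 + d e^{2πix})`, `d = cos(π/24)`):

* `F_{V,1}` has analytic invariant circles of every irrational rotation number,
* `F_{V,3/4}` has no invariant circle at all (it has an orbit of period 3 climbing by 1 in `r`).

So for no Diophantine `ρ` is there a threshold `Λ`.  The definitions are in
`Pool/Agent/H782R2/SDefs.lean`.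
-/

open Set Real

namespace Pool.Agent.Results.MP_d23f22_an.NoThreshold

open Pool.Agent.H782R2.Std

lemma golden_dioph : IsDiophantine ((√5 - 1) / 2) := by
  refine ⟨1 / 8, 3, by norm_num, by norm_num, fun m n hm hn => ?_⟩
  set g : ℝ := (√5 - 1) / 2 with hg
  have h5 : √5 ^ 2 = (5 : ℝ) := sq_sqrt (by norm_num)
  have h5' : (2 : ℝ) < √5 ∧ √5 < 3 := by
    constructor
    · rw [Real.lt_sqrt (by norm_num)]; norm_num
    · rw [Real.sqrt_lt' (by norm_num)]; norm_num
  have hg1 : g ^ 2 + g = 1 := by rw [hg]; nlinarith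
  have hn' : (1 : ℝ) ≤ n := by exact_mod_cast hn
  have hn0 : (0 : ℝ) < n := by linarith
  have hm0 : (0 : ℝ) < m := by exact_mod_cast hm
  -- the integer m² + mn - n² is not zero
  have hne : ((m : ℤ) ^ 2 + m * n - n ^ 2) ≠ 0 := by
    intro h
    have h1 : (2 * (m : ℝ) + n) ^ 2 = 5 * (n : ℝ) ^ 2 := by
      have : ((m : ℝ) ^ 2 + m * n - n ^ 2) = 0 := by exact_mod_cast h
      linear_combination 4 * this
    have h2 : √5 = (2 * (m : ℝ) + n) / n := by
      rw [eq_div_iff hn0.ne']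
      have h3 : (√5 * n) ^ 2 = (2 * (m : ℝ) + n) ^ 2 := by rw [mul_pow, h5, h1]
      exact (pow_left_inj₀ (by positivity) (by positivity) two_ne_zero).1 h3
    have hirr : Irrational √5 := by
      have := Nat.Prime.irrational_sqrt (p := 5) (by norm_num)
      exact_mod_cast this
    apply hirr
    refine ⟨(2 * m + n : ℚ) / n, ?_⟩
    rw [h2]
    push_cast
    ring
  have habs : (1 : ℝ) ≤ |(m : ℝ) ^ 2 + m * n - n ^ 2| := by
    have h1 : (1 : ℤ) ≤ |(m : ℤ) ^ 2 + m * n - n ^ 2| := Int.one_le_abs hne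
    exact_mod_cast h1
  have hfac : ((m : ℝ) ^ 2 + m * n - n ^ 2) = n ^ 2 * ((m / n - g) * (m / n + g + 1)) := by
    have : (m / n - g) * (m / n + g + 1) = (m / n : ℝ) ^ 2 + m / n - 1 := by
      linear_combination -hg1
    rw [this]
    field_simp
  have e3 : (n : ℝ) ^ (3 : ℝ) = n ^ 3 := by
    rw [show (3 : ℝ) = ((3 : ℕ) : ℝ) by norm_num, rpow_natCast]
  rw [e3]
  have hsmall : (1 / 8 : ℝ) / n ^ 3 ≤ 1 / 8 / n ^ 2 := by
    apply div_le_div_of_nonneg_left (by norm_num) (by positivity)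
    exact pow_le_pow_right₀ hn' (by norm_num)
  refine lt_of_le_of_lt hsmall ?_
  rw [div_lt_iff₀ (by positivity)]
  by_cases hbig : 1 ≤ |g - m / n|
  · have : (1 : ℝ) ≤ n ^ 2 := one_le_pow₀ hn'
    nlinarith
  · push Not at hbig
    have hb := abs_lt.1 hbig
    have hpos : 0 < (m / n + g + 1 : ℝ) := by
      have : 0 < g := by rw [hg]; linarith
      positivity
    have hup : (m / n + g + 1 : ℝ) < 4 := by
      have : g < 1 := by rw [hg]; linarith
      linarith
    rw [hfac, abs_mul, abs_mul, abs_of_pos hpos, abs_of_pos (by positivity : (0:ℝ) < n ^ 2),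
      abs_sub_comm] at habs
    have hnn : 0 ≤ (n : ℝ) ^ 2 * |g - m / n| := by positivity
    nlinarith

lemma dioph_irrational {ρ : ℝ} (h : IsDiophantine ρ) (h0 : 0 < ρ) : Irrational ρ := by
  rintro ⟨q, hq⟩
  obtain ⟨C, d, hC, hd, hmn⟩ := h
  have hq0 : 0 < q := by rw [← hq] at h0; exact_mod_cast h0
  have hnum : 0 < q.num := Rat.num_pos.2 hq0
  have h1 := hmn q.num.toNat q.den (by omega) q.pos
  have h2 : ((q.num.toNat : ℕ) : ℝ) / (q.den : ℝ) = ρ := by
    rw [← hq]
    have h3 : ((q.num.toNat : ℕ) : ℝ) = ((q.num : ℤ) : ℝ) := by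
      have : ((q.num.toNat : ℕ) : ℤ) = q.num := Int.toNat_of_nonneg hnum.le
      exact_mod_cast congrArg (fun z : ℤ => (z : ℝ)) this
    rw [h3]
    exact_mod_cast (Rat.num_div_den q)
  rw [h2, sub_self, abs_zero] at h1
  have h3 : 0 ≤ C / (q.den : ℝ) ^ d := by positivity
  linarith

/-- There is a real-analytic `V` of mean zero such that `F_{V,3/4}` has no invariant circle, while
`F_{V,1}` has analytic invariant circles of all irrational rotation numbers.  In particular, for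
this `V` the threshold asked for in Q1 does not exist for any Diophantine `ρ > 0` (not even with
`Λ = ∞` allowed), for instance for the golden mean. -/
theorem result : ∃ V : UnitAddCircle → ℝ, IsAnalytic V ∧ (∫ x in (0:ℝ)..1, V (x : UnitAddCircle) = 0) ∧
    (∀ C : Set Cyl, ¬ IsInvCircle V (3 / 4) C) ∧
    (∀ ρ : ℝ, Irrational ρ → ∃ C, IsInvCircle V 1 C ∧ IsAnalyticGraph C ∧ HasRotNum V 1 C ρ) ∧
    IsDiophantine ((√5 - 1) / 2) ∧
    (∀ ρ : ℝ, IsDiophantine ρ → 0 < ρ → ∀ Λ : ENNReal, ¬ IsThreshold V ρ Λ) := by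
  have hall : ∀ ρ : ℝ, Irrational ρ →
      ∃ C, IsInvCircle (VV d0) 1 C ∧ IsAnalyticGraph C ∧ HasRotNum (VV d0) 1 C ρ :=
    fun ρ hρ => all_circles d0_pos d0_lt (fun k => hρ.ne_int k)
  refine ⟨VV d0, VV_analytic d0_pos d0_lt, mean_zero d0, no_circle, hall, golden_dioph, ?_⟩
  intro ρ hρ h0 Λ hΛ
  obtain ⟨C, h1, -, h3⟩ := hall ρ (dioph_irrational hρ h0)
  -- `1 ≤ Λ`
  have hle : ENNReal.ofReal |(1 : ℝ)| ≤ Λ := by
    by_contra hlt
    push Not at hlt
    exact hΛ.1 1 hlt ⟨C, h1, h3⟩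
  have hlt : ENNReal.ofReal |(3 / 4 : ℝ)| < Λ := by
    refine lt_of_lt_of_le ?_ hle
    rw [ENNReal.ofReal_lt_ofReal_iff (by norm_num)]
    norm_num [abs_of_pos]
  obtain ⟨C', h1', -⟩ := hΛ.2 (3 / 4) hlt
  exact no_circle C' h1'

end Pool.Agent.Results.MP_d23f22_an.NoThreshold
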